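import Pool.Agent.Lib.MP_2e793b_nt.Iface

/-!
MP_2e793b_nt, module CHI: the quadratic character of a nonsquare.
-/

set_option autoImplicit false

namespace Pool.Agent.Lib.MP_2e793b_nt.H49

open Pool.Agent.Lib.MP_2e793b_nt

/-- a number coprime to `4|a|` is odd -/
lemma odd_of_cop {a : ℤ} {n : ℕ} (h : n.Coprime (4 * a.natAbs)) : Odd n := by
  have h2 : n.Coprime 2 := Nat.Coprime.coprime_dvd_right ⟨2 * a.natAbs, by ring⟩ h
  exact Nat.coprime_two_right.mp h2

/-- the Jacobi symbol at a number that is `1` modulo `4|a|` -/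
lemma jac_one {a : ℤ} {n : ℕ} (hn : Odd n) (h : n ≡ 1 [MOD 4 * a.natAbs]) :
    jacobiSym a n = 1 := by
  rw [jacobiSym.mod_right a hn, h]
  rw [← jacobiSym.mod_right a (by decide : Odd 1)]
  exact jacobiSym.one_right a

/-- a nonsquare has a modulus at which the symbol is `-1` -/
lemma exists_neg (a : ℤ) (ha : a ≠ 0) (hs : ¬ IsSquare a) :
    ∃ n : ℕ, n.Coprime (4 * a.natAbs) ∧ jacobiSym a n = -1 := by
  obtain ⟨s, b, hb, hsq⟩ := Nat.sq_mul_squarefree a.natAbs
  have ha0 : a.natAbs ≠ 0 := Int.natAbs_ne_zero.mpr ha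
  have hb0 : b ≠ 0 := by
    rintro rfl
    apply ha0
    rw [← hb]
    simp
  have hs0 : s ≠ 0 := by
    rintro rfl
    apply ha0
    rw [← hb]
    simp
  -- the signed squarefree part
  obtain ⟨S, hS, haS⟩ : ∃ S : ℤ, S.natAbs = s ∧ a = (b : ℤ) ^ 2 * S := by
    rcases Int.natAbs_eq a with h | h
    · refine ⟨s, by simp, ?_⟩
      rw [h, ← hb]
      push_cast
      ring
    · refine ⟨-s, by simp, ?_⟩
      rw [h, ← hb]
      push_cast
      ring
  have hbd : b ∣ 4 * a.natAbs := ⟨4 * (b * s), by rw [← hb]; ring⟩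
  -- it is enough to find `n` for `S`
  have red : ∀ n : ℕ, n.Coprime (4 * a.natAbs) → jacobiSym S n = -1 → jacobiSym a n = -1 := by
    intro n hn hS1
    have hbn : (b : ℤ).gcd n = 1 := by
      have : b.Coprime n := (Nat.Coprime.coprime_dvd_right hbd hn).symm
      simpa [Int.gcd] using this
    rw [haS, jacobiSym.mul_left, jacobiSym.sq_one' hbn, hS1]
    norm_num
  by_cases hodd : ∃ p : ℕ, p.Prime ∧ p ≠ 2 ∧ p ∣ s
  · obtain ⟨p, hp, hp2, hps⟩ := hodd
    have : Fact p.Prime := ⟨hp⟩
    obtain ⟨s', hs'⟩ := hps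
    have hps' : ¬ p ∣ s' := by
      intro hd
      have h2 : p * p ∣ s := by
        obtain ⟨c, hc⟩ := hd
        exact ⟨c, by rw [hs', hc]; ring⟩
      have := hsq p h2
      rw [Nat.isUnit_iff] at this
      exact hp.one_lt.ne' this
    obtain ⟨S', hS', hSS'⟩ : ∃ S' : ℤ, S'.natAbs = s' ∧ S = (p : ℤ) * S' := by
      rcases Int.natAbs_eq S with h | h
      · refine ⟨s', by simp, ?_⟩
        rw [h, hS, hs']
        push_cast
        ring
      · refine ⟨-s', by simp, ?_⟩
        rw [h, hS, hs']
        push_cast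
        ring
    obtain ⟨k, M, hM, hkM⟩ := Nat.exists_eq_pow_mul_and_not_dvd
      (n := 4 * a.natAbs) (by omega) p hp.ne_one
    have hpM : p.Coprime M := (Nat.Prime.coprime_iff_not_dvd hp).mpr hM
    have hp4 : p.Coprime 4 := by
      have h22 : p.Coprime 2 := (Nat.coprime_primes hp Nat.prime_two).mpr hp2
      have : p.Coprime (2 * 2) := Nat.Coprime.mul_right h22 h22
      simpa using this
    have hdiv : 4 * s' ∣ M := by
      have h1 : 4 * s' ∣ p ^ k * M := by
        rw [← hkM, ← hb, hs']
        exact ⟨b ^ 2 * p, by ring⟩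
      have hc : (4 * s').Coprime (p ^ k) := by
        apply Nat.Coprime.pow_right
        apply Nat.Coprime.symm
        exact Nat.Coprime.mul_right hp4 ((Nat.Prime.coprime_iff_not_dvd hp).mpr hps')
      exact Nat.Coprime.dvd_of_dvd_mul_left hc h1
    have hdiv4 : 4 ∣ M := dvd_trans ⟨s', rfl⟩ hdiv
    -- a nonresidue modulo `p`
    obtain ⟨r, hr⟩ : ∃ r : ZMod p, quadraticChar (ZMod p) r = -1 := by
      apply quadraticChar_exists_neg_one
      rw [ZMod.ringChar_zmod_n]
      exact hp2
    obtain ⟨n, hn1, hn2⟩ := Nat.chineseRemainder hpM r.val 1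
    have hr0 : r ≠ 0 := by
      rintro rfl
      rw [quadraticChar_zero] at hr
      norm_num at hr
    have hnp : ((n : ℕ) : ZMod p) = r := by
      have h1 := (ZMod.natCast_eq_natCast_iff _ _ _).mpr hn1
      rw [h1, ZMod.natCast_zmod_val]
    have hcopM : n.Coprime M := by
      have : Nat.gcd n M = Nat.gcd 1 M := Nat.ModEq.gcd_eq hn2
      simpa using this
    have hcopp : n.Coprime p := by
      apply Nat.Coprime.symm
      rw [Nat.Prime.coprime_iff_not_dvd hp]
      intro hd
      apply hr0
      rw [← hnp]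
      exact (ZMod.natCast_eq_zero_iff _ _).mpr hd
    have hcop : n.Coprime (4 * a.natAbs) := by
      rw [hkM]
      exact Nat.Coprime.mul_right (Nat.Coprime.pow_right _ hcopp) hcopM
    have hnodd : Odd n := odd_of_cop hcop
    refine ⟨n, hcop, red n hcop ?_⟩
    have hmod : n ≡ 1 [MOD 4 * S'.natAbs] := by
      rw [hS']
      exact hn2.of_dvd hdiv
    have hn4 : n % 4 = 1 := by
      have := hn2.of_dvd hdiv4
      exact this
    rw [hSS', jacobiSym.mul_left, jac_one hnodd hmod, mul_one]
    rw [jacobiSym.quadratic_reciprocity_one_mod_four' (hp.odd_of_ne_two hp2) hn4]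
    rw [← jacobiSym.legendreSym.to_jacobiSym, legendreSym]
    rw [Int.cast_natCast, hnp, hr]
  · push Not at hodd
    have hs12 : s = 1 ∨ s = 2 := by
      by_cases h1 : s = 1
      · exact Or.inl h1
      · right
        have hall : ∀ p : ℕ, p.Prime → p ∣ s → p = 2 := by
          intro p hp hd
          by_contra h
          exact hodd p hp h hd
        have hk := Nat.eq_prime_pow_of_unique_prime_dvd hs0
          (fun {d} hd hdd => hall d hd hdd)
        set k := s.primeFactorsList.length with hkdef
        have hk1 : k ≤ 1 := by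
          by_contra hk2
          push Not at hk2
          have h4 : 2 * 2 ∣ s := by
            rw [hk]
            exact Dvd.dvd.trans (by norm_num) (pow_dvd_pow 2 hk2)
          have := hsq 2 h4
          rw [Nat.isUnit_iff] at this
          omega
        interval_cases k
        · exact absurd (by simpa using hk) h1
        · simpa using hk
    obtain ⟨k, M, hM, hkM⟩ := Nat.exists_eq_pow_mul_and_not_dvd
      (n := 4 * a.natAbs) (by omega) 2 (by norm_num)
    have h2M : Nat.Coprime 2 M := (Nat.Prime.coprime_iff_not_dvd Nat.prime_two).mpr hM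
    have h8M : Nat.Coprime 8 M := by
      have : Nat.Coprime (2 ^ 3) M := Nat.Coprime.pow_left 3 h2M
      simpa using this
    have key : ∀ c : ℕ, c % 2 = 1 → ∃ n : ℕ, n.Coprime (4 * a.natAbs) ∧ n % 8 = c % 8 := by
      intro c hc
      obtain ⟨n, hn1, hn2⟩ := Nat.chineseRemainder h8M c 1
      refine ⟨n, ?_, hn1⟩
      have hcopM : n.Coprime M := by
        have : Nat.gcd n M = Nat.gcd 1 M := Nat.ModEq.gcd_eq hn2
        simpa using this
      have hn1' : n % 8 = c % 8 := hn1
      have hnodd : n % 2 = 1 := by omega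
      have hcop2 : n.Coprime 2 := Nat.coprime_two_right.mpr (Nat.odd_iff.mpr hnodd)
      rw [hkM]
      exact Nat.Coprime.mul_right (Nat.Coprime.pow_right _ hcop2) hcopM
    rcases hs12 with h1 | h2
    · rcases Int.natAbs_eq S with h | h
      · exfalso
        apply hs
        refine ⟨b, ?_⟩
        rw [haS, h, hS, h1]
        push_cast
        ring
      · obtain ⟨n, hcop, hn⟩ := key 3 (by norm_num)
        have hnodd : Odd n := odd_of_cop hcop
        refine ⟨n, hcop, red n hcop ?_⟩
        have hS1 : S = -1 := by rw [h, hS, h1]; norm_num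
        rw [hS1, jacobiSym.at_neg_one hnodd]
        rw [ZMod.χ₄_nat_eq_if_mod_four]
        have : n % 4 = 3 := by omega
        have : n % 2 = 1 := by omega
        simp [*]
    · obtain ⟨n, hcop, hn⟩ := key 5 (by norm_num)
      have hnodd : Odd n := odd_of_cop hcop
      refine ⟨n, hcop, red n hcop ?_⟩
      have hn8 : ((n : ℕ) : ZMod 8) = 5 := by
        have : (n : ZMod 8) = ((5 : ℕ) : ZMod 8) := by
          rw [ZMod.natCast_eq_natCast_iff]
          exact hn
        rw [this]
        rfl
      rcases Int.natAbs_eq S with h | h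
      · have hS1 : S = 2 := by rw [h, hS, h2]; norm_num
        rw [hS1, jacobiSym.at_two hnodd, hn8]
        rfl
      · have hS1 : S = -2 := by rw [h, hS, h2]; norm_num
        rw [hS1, jacobiSym.at_neg_two hnodd, hn8]
        rfl

/-- the function of the character -/
noncomputable def cf (a : ℤ) (x : ZMod (4 * a.natAbs)) : ℂ :=
  open scoped Classical in
  if IsUnit x then ((jacobiSym a x.val : ℤ) : ℂ) else 0

theorem chi : ChiStmt := by
  intro a ha hs
  obtain ⟨n, hn, hneg⟩ := exists_neg a ha hs
  have ha0 : a.natAbs ≠ 0 := Int.natAbs_ne_zero.mpr ha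
  have hN : NeZero (4 * a.natAbs) := ⟨by omega⟩
  have hval : ∀ x : ZMod (4 * a.natAbs), IsUnit x → x.val.Coprime (4 * a.natAbs) := by
    intro x hx
    have h := (ZMod.isUnit_iff_coprime x.val (4 * a.natAbs)).mp (by
      rw [ZMod.natCast_zmod_val]; exact hx)
    exact h
  -- values at natural numbers
  have hnat : ∀ m : ℕ, m.Coprime (4 * a.natAbs) →
      jacobiSym a (m : ZMod (4 * a.natAbs)).val = jacobiSym a m := by
    intro m hm
    rw [ZMod.val_natCast, ← jacobiSym.mod_right a (odd_of_cop hm)]
  let χ : DirichletCharacter ℂ (4 * a.natAbs) :=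
    { toFun := cf a
      map_one' := by
        have h1 : IsUnit (1 : ZMod (4 * a.natAbs)) := isUnit_one
        rw [cf, if_pos h1]
        have := hnat 1 (by simp)
        rw [Nat.cast_one] at this
        rw [this, jacobiSym.one_right]
        norm_num
      map_mul' := by
        intro x y
        by_cases hx : IsUnit x
        · by_cases hy : IsUnit y
          · have hxy : IsUnit (x * y) := hx.mul hy
            have h1 : jacobiSym a (x * y).val = jacobiSym a (x.val * y.val) := by
              rw [ZMod.val_mul, ← jacobiSym.mod_right a]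
              exact (odd_of_cop (hval x hx)).mul (odd_of_cop (hval y hy))
            have hx0 : NeZero x.val := ⟨(odd_of_cop (hval x hx)).pos.ne'⟩
            have hy0 : NeZero y.val := ⟨(odd_of_cop (hval y hy)).pos.ne'⟩
            simp only [cf, if_pos hx, if_pos hy, if_pos hxy, h1, jacobiSym.mul_right]
            push_cast
            ring
          · have hxy : ¬ IsUnit (x * y) := fun h => hy (isUnit_of_mul_isUnit_right h)
            simp only [cf, if_neg hy, if_neg hxy, mul_zero]
        · have hxy : ¬ IsUnit (x * y) := fun h => hx (isUnit_of_mul_isUnit_left h)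
          simp only [cf, if_neg hx, if_neg hxy, zero_mul]
      map_nonunit' := by
        intro x hx
        change cf a x = 0
        simp only [cf, if_neg hx] }
  have hχ : ∀ m : ℕ, m.Coprime (4 * a.natAbs) →
      χ (m : ZMod (4 * a.natAbs)) = ((jacobiSym a m : ℤ) : ℂ) := by
    intro m hm
    have hu : IsUnit (m : ZMod (4 * a.natAbs)) := (ZMod.isUnit_iff_coprime m _).mpr hm
    change cf a _ = _
    rw [cf, if_pos hu, hnat m hm]
  refine ⟨χ, ?_, hχ⟩
  intro h1
  have h2 := hχ n hn
  rw [h1, MulChar.one_apply ((ZMod.isUnit_iff_coprime n _).mpr hn), hneg] at h2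
  norm_num at h2

end Pool.Agent.Lib.MP_2e793b_nt.H49
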